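import Mathlib

set_option autoImplicit false

open Set Filter Topology Metric
open scoped ComplexConjugate

/-!
# MP_ab13d2_an Q2 : definitions and the statements to be proved, with complete paper proofs

The aim: a non-elliptic semigroup of the disc with `v^T(t) ≥ (1/2) log t - C` is parabolic of
positive hyperbolic step.
-/

namespace Pool.Agent.H220.TS

/-- The open unit disc. -/
def D : Set ℂ := ball 0 1

/-- `|T_z(w)|`, the pseudo-hyperbolic distance of the disc. -/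
noncomputable def psi (z w : ℂ) : ℝ := ‖(z - w) / (1 - conj z * w)‖

/-- The hyperbolic distance of the disc. -/
noncomputable def omega (z w : ℂ) : ℝ := 1 / 2 * Real.log ((1 + psi z w) / (1 - psi z w))

/-- A non-elliptic semigroup of holomorphic self-maps of the disc. -/
structure IsSemigroup (φ : ℝ → ℂ → ℂ) : Prop where
  holo : ∀ t, 0 ≤ t → DifferentiableOn ℂ (φ t) D
  maps : ∀ t, 0 ≤ t → MapsTo (φ t) D D
  zero : ∀ z ∈ D, φ 0 z = z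
  add : ∀ s t, 0 ≤ s → 0 ≤ t → ∀ z ∈ D, φ (s + t) z = φ s (φ t z)
  cont : ∀ t₀, 0 ≤ t₀ → TendstoLocallyUniformlyOn φ (φ t₀) (𝓝[Ici 0] t₀) D
  nofix : ∀ t, 0 < t → ∀ z ∈ D, φ t z ≠ z

/-- `τ` is the Denjoy-Wolff point: `|τ| = 1` and `φ_t → τ` locally uniformly as `t → ∞`. -/
def IsDenjoyWolff (φ : ℝ → ℂ → ℂ) (τ : ℂ) : Prop :=
  ‖τ‖ = 1 ∧ TendstoLocallyUniformlyOn φ (fun _ => τ) atTop D

/-- `h` is a Koenigs function: univalent on the disc with `h(φ_t(z)) = h(z) + i t`. -/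
def IsKoenigs (φ : ℝ → ℂ → ℂ) (h : ℂ → ℂ) : Prop :=
  DifferentiableOn ℂ h D ∧ InjOn h D ∧
    ∀ t : ℝ, 0 ≤ t → ∀ z ∈ D, h (φ t z) = h z + t * Complex.I

/-- `Ω = ⋃_{t ≥ 0} (h(D) - i t)`. -/
def Omega (h : ℂ → ℂ) : Set ℂ := {w | ∃ t : ℝ, 0 ≤ t ∧ w + t * Complex.I ∈ h '' D}

/-- The tangential speed `v^T(t)`: the hyperbolic distance of `φ_t(0)` from the diameter
`(-1,1) τ`, i.e. from its hyperbolic orthogonal projection onto that diameter. -/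
noncomputable def vT (φ : ℝ → ℂ → ℂ) (τ : ℂ) (t : ℝ) : ℝ :=
  sInf {d | ∃ r : ℝ, -1 < r ∧ r < 1 ∧ d = omega (r * τ) (φ t 0)}

/-- The Cayley transform with pole `τ`, onto the right half-plane. -/
noncomputable def W (τ z : ℂ) : ℂ := (τ + z) / (τ - z)

/-- **S_pick** (Schwarz-Pick). Proof: apply Mathlib's Schwarz lemma
(`Complex.norm_le_norm_of_mapsTo_ball` or `dist_le_div_mul_dist_of_mapsTo_ball`) to
`ζ ↦ T_{f z}(f (T_z(ζ)))` with `T_a(ζ) = (a - ζ)/(1 - conj a ζ)` (an involution of the disc which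
interchanges `0` and `a`; the library has several versions of this: grep schwarz_pick). Also
`psi z w < 1` on the disc: `1 - |T_z w|² = (1-|z|²)(1-|w|²)/|1 - conj z w|²`. -/
def S_pick : Prop :=
  (∀ z ∈ D, ∀ w ∈ D, psi z w < 1) ∧
  ∀ f : ℂ → ℂ, DifferentiableOn ℂ f D → MapsTo f D D →
    ∀ z ∈ D, ∀ w ∈ D, psi (f z) (f w) ≤ psi z w

/-- **S_cay** (algebra of the Cayley transform).

Proof. `W z + conj (W z') = 2 (1 - z conj z') / ((τ - z) conj(τ - z'))` and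
`W z - W z' = 2 τ (z - z') / ((τ - z)(τ - z'))` (use `τ conj τ = 1`). The first with `z = z'` gives
the real part; the quotient gives the third claim (`|1 - z conj z'| = |1 - conj z z'|`). Fourth:
`z = τ (w-1)/(w+1)` with `w = W z`, so `1 - |z|² = 4 Re w/|w+1|²`, hence
`(1+|z|)/(1-|z|) = (1+|z|)²/(1-|z|²) ≤ 4/(1-|z|²) = |w+1|²/Re w`. -/
def S_cay : Prop :=
  ∀ τ : ℂ, ‖τ‖ = 1 → ∀ z ∈ D,
    (W τ z).re = (1 - ‖z‖ ^ 2) / ‖τ - z‖ ^ 2 ∧ 0 < (W τ z).re ∧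
    (∀ z' ∈ D, psi z z' = ‖W τ z - W τ z'‖ / ‖W τ z + conj (W τ z')‖) ∧
    (1 + ‖z‖) / (1 - ‖z‖) ≤ (‖W τ z‖ + 1) ^ 2 / (W τ z).re

/-- **S_julia** (Julia's lemma for the semigroup; may use `h : S_pick`).

Proof. Fix `t ≥ 0`, `z ∈ D`; put `z_k = φ (k t) 0`, `d_k = 1 - |z_k|² > 0`. If `t = 0` trivial. Let
`t > 0`: `z_k → τ` (Denjoy-Wolff at the point `0`: `TendstoLocallyUniformlyOn` gives pointwise
convergence on the open disc), so `d_k → 0`, `d_k > 0`. So for every `ε > 0` there are infinitely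
many `k` with `d_{k+1} ≤ (1+ε) d_k` (indeed with `d_{k+1} < d_k`: otherwise `d` is eventually
nondecreasing and positive and cannot tend to `0`). Schwarz-Pick for `φ t` and the points `z`, `z_k`
(`φ t z_k = z_{k+1}`) reads, with `1 - psi(a,b)² = (1-|a|²)(1-|b|²)/|1 - conj a b|²`:
`(1-|φ_t z|²) d_{k+1} / |1 - conj(φ_t z) z_{k+1}|² ≥ (1-|z|²) d_k / |1 - conj z z_k|²`.
Along the `k` with `d_{k+1} < d_k` the quotient `d_{k+1}/d_k` is `< 1`, so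
`(1-|φ_t z|²) / |1 - conj(φ_t z) z_{k+1}|² ≥ (1-|z|²)/|1 - conj z z_k|²`; let `k → ∞` along them:
`|1 - conj z τ| = |τ - z|` as `|τ| = 1`. With the formula for the real part of `W` this is the claim. -/
def S_julia : Prop :=
  ∀ (φ : ℝ → ℂ → ℂ) (τ : ℂ), IsSemigroup φ → IsDenjoyWolff φ τ →
    ∀ t : ℝ, 0 ≤ t → ∀ z ∈ D,
      (1 - ‖z‖ ^ 2) / ‖τ - z‖ ^ 2 ≤ (1 - ‖φ t z‖ ^ 2) / ‖τ - φ t z‖ ^ 2

/-- **S_tan** (upper bound for the distance from the diameter; may use `h₁ : S_pick`,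
`h₂ : S_cay`).

Proof. Let `w = W τ z`, `Re w > 0`, `r = (|w| - 1)/(|w| + 1) ∈ (-1,1)`, so that
`W τ (r τ) = (1+r)/(1-r) = |w|`. By `S_cay`, `ρ := psi (r τ) z = | |w| - w | / | |w| + conj w |`,
and `1 - ρ² = 4 |w| Re w / | |w| + conj w |² ≥ Re w/|w|` (as `| |w| + conj w | ≤ 2|w|`). So
`(1+ρ)/(1-ρ) = (1+ρ)²/(1-ρ²) ≤ 4 |w|/Re w`. -/
def S_tan : Prop :=
  ∀ τ : ℂ, ‖τ‖ = 1 → ∀ z ∈ D, ∃ r : ℝ, -1 < r ∧ r < 1 ∧
    omega (r * τ) z ≤ 1 / 2 * Real.log (4 * ‖W τ z‖ / (W τ z).re)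

/-- **S_seq0** (a sequence lemma). Proof: `k n / c → 0`, so there is `N ≥ 1` with
`k n ≤ c/3` for `n ≥ N`; then `a (n+1) ≤ a n (1 + 1/(3n))` and
`(1+1/(3n))² ≤ 1 + 1/n = (n+1)/n`, so `a n ^ 2 / n` is nonincreasing for `n ≥ N`, so
`a n ^ 2 ≤ A n`; with `a n ≥ c n` this gives `c² n ≤ A`, false for large `n`. -/
def S_seq0 : Prop :=
  ∀ (a x k : ℕ → ℝ) (c : ℝ), 0 < c → (∀ n, 1 ≤ x n) → (∀ n, 0 ≤ k n) →
    (∀ n : ℕ, 1 ≤ n → c * n * x n ≤ a n) →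
    (∀ n : ℕ, a (n + 1) ≤ a n + k n * x n) → ¬ Tendsto k atTop (𝓝 0)

/-- **S_seqK** (a sequence lemma). Proof: let `M` be a natural number with `M ≥ K/c`. For `n ≥ 1`,
`a (n+1) ≤ a n + K a n/(c n) ≤ a n (1 + M/n) ≤ a n (1 + 1/n)^M` (Bernoulli), so `a n / n^M` is
nonincreasing for `n ≥ 1` and `a n ≤ a 1 n^M`; take `A = |a 1| + |a 0|+1`. -/
def S_seqK : Prop :=
  ∀ (a x : ℕ → ℝ) (c K : ℝ), 0 < c → 0 ≤ K → (∀ n, 1 ≤ x n) →
    (∀ n : ℕ, 1 ≤ n → c * n * x n ≤ a n) →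
    (∀ n : ℕ, a (n + 1) ≤ a n + K * x n) →
    ∃ (M : ℕ) (A : ℝ), ∀ n : ℕ, 1 ≤ n → a n ≤ A * (n : ℝ) ^ M

/-- **S_orbit** (the orbit in the half-plane; may use `h₁ : S_pick`, `h₂ : S_cay`, `h₃ : S_julia`,
`h₄ : S_tan`).

Proof. Put `z_n = φ n 0`, `w_n = W τ z_n`, `a n = |w_n|`, `x n = Re w_n`, `w_0 = 1`.
`x n ≥ 1`: `S_julia` (with `z = 0`, `t = n`) and `S_cay`. Let `ρ_n = psi z_n z_{n+1}`; by `S_pick`
for `φ 1` it is `< 1` and nonincreasing (`z_{n+1} = φ 1 z_n`, `z_{n+2} = φ 1 z_{n+1}`; use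
`φ (1 + n) 0 = φ 1 (φ n 0)`), so `ρ_n ≤ ρ_0 < 1`; put `k n = 2 ρ_n/(1-ρ_n) ≤ 2ρ_n/(1-ρ_0)` and
`K = 2 ρ_0/(1-ρ_0)`. By `S_cay`, `|w_{n+1} - w_n| = ρ_n |w_{n+1} + conj w_n| ≤
ρ_n (|w_{n+1} - w_n| + 2 x n)` (as `w_n + conj w_n = 2 x n`; note `|w_n + conj w_{n+1}| =
|w_{n+1} + conj w_n|`), so `|w_{n+1} - w_n| ≤ k n x n`, which is the recursion. Lower bound: by
`S_tan` there is `r ∈ (-1,1)` with `omega (r τ) z_n ≤ (1/2) log (4 a n/x n)`; the set in `vT` is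
bounded below by `0` (`psi < 1` on the disc gives `omega ≥ 0`), so `vT φ τ n ≤ (1/2) log (4 a n/x n)`
and with the hypothesis `(1/2) log n - C ≤ vT φ τ n` one gets `n e^{-2C} ≤ 4 a n/x n`; take
`c = e^{-2C}/4`. The last two clauses: `k n → 0` if `ρ_n → 0`, from `k n ≤ 2ρ_n/(1-ρ_0)`; and
`a n ≥ 0`; finally `(1+|z_n|)/(1-|z_n|) ≤ (a n + 1)²/x n ≤ (a n + 1)²` by `S_cay`. -/
def S_orbit : Prop :=
  ∀ (φ : ℝ → ℂ → ℂ) (τ : ℂ) (C : ℝ), IsSemigroup φ → IsDenjoyWolff φ τ →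
    (∀ t : ℝ, 1 ≤ t → 1 / 2 * Real.log t - C ≤ vT φ τ t) →
    ∃ (a x k : ℕ → ℝ) (c K : ℝ), 0 < c ∧ 0 ≤ K ∧ (∀ n, 1 ≤ x n) ∧ (∀ n, 0 ≤ k n) ∧
      (∀ n, k n ≤ K) ∧ (∀ n, 0 ≤ a n) ∧
      (∀ n : ℕ, 1 ≤ n → c * n * x n ≤ a n) ∧
      (∀ n : ℕ, a (n + 1) ≤ a n + k n * x n) ∧
      (Tendsto (fun n : ℕ => psi (φ n 0) (φ (n + 1) 0)) atTop (𝓝 0) → Tendsto k atTop (𝓝 0)) ∧
      (∀ n : ℕ, (1 + ‖φ n 0‖) / (1 - ‖φ n 0‖) ≤ (a n + 1) ^ 2)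

/-- **S_grow** (growth of functions with values in a half-plane).

Proof. Put `G = (F - F 0)/(F + conj (F 0))` (here `F 0` is the value at `0`); `Re F > 0` gives
`|G| < 1`, `G 0 = 0`, so `|G z| ≤ |z|` (Schwarz). `F = (F 0 + conj (F 0) G)/(1 - G)`. -/
def S_grow : Prop :=
  ∀ F : ℂ → ℂ, DifferentiableOn ℂ F D → (∀ z ∈ D, 0 < (F z).re) →
    ∀ z ∈ D, ‖F z‖ ≤ ‖F 0‖ * ((1 + ‖z‖) / (1 - ‖z‖))

/-- **S_inv** (Schwarz-Pick through the inverse; may use `h : S_pick`).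

Proof. `h` is holomorphic and injective on the open disc, so it is an open map there, its inverse
`g : h(D) → D` is continuous and holomorphic (the derivative of an injective holomorphic function
does not vanish; or: `g` is continuous and holomorphic off the closed discrete set `h({h' = 0})`,
hence holomorphic; look in Mathlib `Analysis/Complex/RiemannMapping.lean`, `OpenMapping.lean` and in
the library: grep InjOn deriv ne_zero). With `G(ζ) = g(c + R ζ)`, a holomorphic map `D → D`, one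
has `G 0 = z₁` and `G ((h z₂ - c)/R) = z₂`; Schwarz-Pick gives
`psi z₁ z₂ ≤ psi 0 ((h z₂ - c)/R) = |h z₂ - c|/R`. -/
def S_inv : Prop :=
  ∀ (h : ℂ → ℂ) (R : ℝ), DifferentiableOn ℂ h D → InjOn h D → 0 < R →
    ∀ z₁ ∈ D, ball (h z₁) R ⊆ h '' D → ∀ z₂ ∈ D, ‖h z₂ - h z₁‖ < R →
      psi z₁ z₂ ≤ ‖h z₂ - h z₁‖ / R

/-- **S_omega** (shape of `Ω`).

Proof. `h(D)` is open (open mapping: `AnalyticOnNhd.is_constant_or_isOpen`; `h` is injective, so not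
constant on the disc) and connected, so `A = {Re w : w ∈ h(D)}` is open (`Complex.isOpenMap_re`) and
preconnected, i.e. `OrdConnected`, and nonempty. If `x ∈ A`, `w ∈ h(D)`, `Re w = x`, and `s` is
real: `w + i s = (w + i(|s|+s)) - i |s|`, and `w + i u ∈ h(D)` for all `u ≥ 0` (as
`h (φ u z) = h z + i u`), so `w + i s ∈ Ω`. Hence `Ω = {w | Re w ∈ A}`. A nonempty open
order-connected `A ⊆ ℝ` is one of `univ`, `Ioi a`, `Iio a`, `Ioo a b` (use boundedness above/below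
and `sInf A`, `sSup A ∉ A` by openness). -/
def S_omega : Prop :=
  ∀ (φ : ℝ → ℂ → ℂ) (h : ℂ → ℂ), IsSemigroup φ → IsKoenigs φ h →
    Omega h = univ ∨ (∃ a : ℝ, Omega h = {w | a < w.re}) ∨ (∃ a : ℝ, Omega h = {w | w.re < a}) ∨
      ∃ a b : ℝ, a < b ∧ Omega h = {w | a < w.re ∧ w.re < b}

/-- **S_cover** (`Ω = ℂ` gives large discs in `h(D)` along the orbit).

Proof. For `t ≥ 0` let `U_t = {w | w + i t ∈ h(D)}`: open sets (open mapping as in `S_omega`),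
increasing in `t` (`h(D) + i s ⊆ h(D)` for `s ≥ 0`), with union `Ω = ℂ`. The closed ball
`closedBall (h 0) R` is compact, so it is contained in `U_T` for some natural `T`, hence in `U_n` for
all `n ≥ T`; and `h (φ n 0) = h 0 + i n`. -/
def S_cover : Prop :=
  ∀ (φ : ℝ → ℂ → ℂ) (h : ℂ → ℂ), IsSemigroup φ → IsKoenigs φ h → Omega h = univ →
    ∀ R : ℝ, 0 < R → ∃ N : ℕ, ∀ n : ℕ, N ≤ n → ball (h (φ n 0)) R ⊆ h '' D

/-- **S_strip** (a strip is impossible for an orbit of polynomial growth; may use `hg : S_grow`).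

Proof. `h(D) ⊆ Ω` (take `t = 0`). Put `L = b - a`, `F z = exp (-(i π/L)(h z - (a+b)/2))`: for
`h z = x + i y` with `a < x < b` the argument of `F z` is `-(π/L)(x - (a+b)/2) ∈ (-π/2, π/2)` and the
modulus is `exp (π y/L)`; so `Re F > 0` and `|F (φ n 0)| = e^{π n/L} |F 0|`, `F 0 ≠ 0`. By `S_grow`
`e^{π n/L} ≤ (1+|φ n 0|)/(1-|φ n 0|) ≤ (A n^M + 1)²` for all `n ≥ 1`: false for large `n`. -/
def S_strip : Prop :=
  ∀ (φ : ℝ → ℂ → ℂ) (h : ℂ → ℂ) (a b : ℝ), IsSemigroup φ → IsKoenigs φ h → a < b →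
    Omega h = {w | a < w.re ∧ w.re < b} →
    ∀ (M : ℕ) (A : ℝ), ¬ ∀ n : ℕ, 1 ≤ n → (1 + ‖φ n 0‖) / (1 - ‖φ n 0‖) ≤ (A * (n : ℝ) ^ M + 1) ^ 2

/-- **S_step** (monotonicity of the hyperbolic step; may use `h : S_pick`).

Proof. Let `q t = psi (φ t 0) (φ (t+1) 0)`. By `S_pick` for `φ s`, `q (t+s) ≤ q t` for `s, t ≥ 0`
(`φ (s+t) 0 = φ s (φ t 0)`), and `0 ≤ q < 1`. If `q n` does not tend to `0` along the integers then
the nonincreasing `q` on `[0,∞)` has a limit `ℓ > 0` and `q t ≥ ℓ` for all `t ≥ 0`, so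
`omega ≥ (1/2) log ((1+ℓ)/(1-ℓ)) > 0`; the limit of `omega` as `t → ∞` exists by continuity of
`u ↦ (1/2) log ((1+u)/(1-u))` at `ℓ ≤ q 0 < 1`. -/
def S_step : Prop :=
  ∀ φ : ℝ → ℂ → ℂ, IsSemigroup φ →
    ¬ Tendsto (fun n : ℕ => psi (φ n 0) (φ (n + 1) 0)) atTop (𝓝 0) →
    ∃ l : ℝ, 0 < l ∧ Tendsto (fun t : ℝ => omega (φ t 0) (φ (t + 1) 0)) atTop (𝓝 l)

end Pool.Agent.H220.TS
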