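import Pool.Agent.H220.TS.Stm

set_option autoImplicit false

open Set Filter Topology Metric
open scoped ComplexConjugate

namespace Pool.Agent.H220.TS

theorem step_not_zero (h0 : S_seq0) (ho : S_orbit) (φ : ℝ → ℂ → ℂ) (τ : ℂ)
    (hφ : IsSemigroup φ) (hτ : IsDenjoyWolff φ τ) (C : ℝ)
    (hC : ∀ t : ℝ, 1 ≤ t → 1 / 2 * Real.log t - C ≤ vT φ τ t) :
    ¬ Tendsto (fun n : ℕ => psi (φ n 0) (φ (n + 1) 0)) atTop (𝓝 0) := by
  obtain ⟨a, x, k, c, K, hc, hK, hx, hk, hkK, ha, hlow, hrec, hlim, hdist⟩ := ho φ τ C hφ hτ hC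
  intro hlim0
  exact h0 a x k c hc hx hk hlow hrec (hlim hlim0)

theorem asm (hp : S_pick) (h0 : S_seq0) (hK : S_seqK) (ho : S_orbit) (hi : S_inv)
    (hom : S_omega) (hcov : S_cover) (hst : S_strip) (hstep : S_step) :
    ∀ (φ : ℝ → ℂ → ℂ) (τ : ℂ), IsSemigroup φ → IsDenjoyWolff φ τ →
      (∃ C : ℝ, ∀ t : ℝ, 1 ≤ t → 1 / 2 * Real.log t - C ≤ vT φ τ t) →
      (∀ h : ℂ → ℂ, IsKoenigs φ h →
        (∃ a : ℝ, Omega h = {w | a < w.re}) ∨ (∃ a : ℝ, Omega h = {w | w.re < a})) ∧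
      ∃ l : ℝ, 0 < l ∧
        Tendsto (fun t : ℝ => omega (φ t 0) (φ (t + 1) 0)) atTop (𝓝 l) := by
  intro φ τ hφ hτ ⟨C, hC⟩
  have hnz := step_not_zero h0 ho φ τ hφ hτ C hC
  refine ⟨?_, hstep φ hφ hnz⟩
  intro h hh
  obtain ⟨a, x, k, c, K, hc, hK0, hx, hk, hkK, ha, hlow, hrec, hlim, hdist⟩ := ho φ τ C hφ hτ hC
  have h0D : (0 : ℂ) ∈ D := by simp [D]
  rcases hom φ h hφ hh with hU | hR | hL | ⟨a', b', hab, hS⟩
  · exfalso
    apply hnz
    rw [Metric.tendsto_atTop]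
    intro ε hε
    obtain ⟨N, hN⟩ := hcov φ h hφ hh hU (1 + 1 / ε) (by positivity)
    refine ⟨N, fun n hn => ?_⟩
    have hb := hN n hn
    have hn0 : (0 : ℝ) ≤ (n : ℝ) := Nat.cast_nonneg n
    have hz1 : φ n 0 ∈ D := hφ.maps n hn0 h0D
    have hz2 : φ ((n : ℝ) + 1) 0 ∈ D := hφ.maps _ (by positivity) h0D
    have e1 : h (φ n 0) = h 0 + (n : ℂ) * Complex.I := by
      have := hh.2.2 n hn0 0 h0D
      simpa using this
    have e2 : h (φ ((n : ℝ) + 1) 0) = h 0 + ((n : ℂ) + 1) * Complex.I := by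
      have := hh.2.2 ((n : ℝ) + 1) (by positivity) 0 h0D
      simpa using this
    have e3 : h (φ ((n : ℝ) + 1) 0) - h (φ n 0) = Complex.I := by
      rw [e1, e2]; ring
    have hRpos : 0 < 1 + 1 / ε := by positivity
    have h1lt : (1 : ℝ) < 1 + 1 / ε := by
      have : 0 < 1 / ε := by positivity
      linarith
    have key := hi h (1 + 1 / ε) hh.1 hh.2.1 hRpos (φ n 0) hz1 hb (φ ((n : ℝ) + 1) 0) hz2
      (by rw [e3]; simpa using h1lt)
    rw [e3, Complex.norm_I] at key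
    have hnn : 0 ≤ psi (φ n 0) (φ ((n : ℝ) + 1) 0) := norm_nonneg _
    rw [Real.dist_eq, sub_zero, abs_of_nonneg hnn]
    refine lt_of_le_of_lt key ?_
    rw [div_lt_iff₀ hRpos]
    have : ε * (1 + 1 / ε) = ε + 1 := by field_simp
    rw [this]; linarith
  · exact Or.inl hR
  · exact Or.inr hL
  · exfalso
    obtain ⟨M, A, hMA⟩ := hK a x c K hc hK0 hx hlow (fun n => by
      have h1 := hrec n
      have h2 : k n * x n ≤ K * x n :=
        mul_le_mul_of_nonneg_right (hkK n) (le_trans zero_le_one (hx n))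
      linarith)
    refine hst φ h a' b' hφ hh hab hS M A (fun n hn => ?_)
    refine le_trans (hdist n) ?_
    have h1 := hMA n hn
    have h2 := ha n
    apply pow_le_pow_left₀ (by linarith)
    linarith

end Pool.Agent.H220.TS
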